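import Pool.Agent.Lib.MP_26a019_lc.PoincareMain

/-!
MP_26a019_lc. For every graph of maximum degree at most `D` and every `q ≥ D + 2`, the heat-bath
Glauber dynamics on proper `q`-colourings satisfies the Poincare inequality with constant
`(q - D - 1) / ((q - 1) n)` for all additive observables `f ↦ ∑ v, h v (f v)`.
-/

namespace Pool.Agent.Results.MP_26a019_lc.AdditivePoincare

open Pool.Agent.Kempe
open scoped Classical in
/-- Poincare inequality with the optimal order for all additive observables, `q ≥ D + 2`. -/
theorem result {V : Type} [Fintype V] (G : SimpleGraph V) (D q : ℕ)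
    (hD : ∀ v, G.degree v ≤ D) (hq : D + 2 ≤ q) (h : V → Fin q → ℝ) :
    ((q : ℝ) - D - 1) / (((q : ℝ) - 1) * (Fintype.card V : ℝ)) *
      variance G (fun f : V → Fin q => ∑ v, h v (f v)) ≤
    dirichlet G (fun f : V → Fin q => ∑ v, h v (f v)) := by
  have := poincare_additive (C := Fin q) G D hD (by simpa using hq) h
  simpa using this

end Pool.Agent.Results.MP_26a019_lc.AdditivePoincare
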