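import Mathlib
import Pool.Agent.Lib.MP_26a019_lc.Was.WFin
import Pool.Agent.Lib.MP_26a019_lc.Was.WAna
import Pool.Agent.Lib.MP_26a019_lc.Was.WFour

set_option autoImplicit false

open Finset Classical

namespace Pool.Agent.Results.MP_26a019_lc.AllGraphs

open Pool.Agent.Kempe Pool.Agent.KempeMix Pool.Agent.KempeWas

theorem kap_zero (r : ℕ) : Kap 0 r 0 := by
  intro C T x y k Q n R hx hxy hk
  omega

/-- For every `q` there is `K` such that Glauber dynamics on the proper `q`-colourings of every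
graph with `n` vertices and maximum degree at most `Δ`, where `Δ + 2 ≤ q` and `4 q ≥ 7 Δ - 3` (or
`Δ = 4`, `q = 6`), is within total variation distance `1 / 4` of the uniform law, from every
starting colouring, after `t` steps for every `t ≥ 2 q ^ (3 K + 1) (n + 1) ^ (K + 1)`. -/
theorem result (q : ℕ) : ∃ K : ℕ, ∀ Δ : ℕ, Δ + 2 ≤ q → (7 * Δ ≤ 4 * q + 3 ∨ (Δ = 4 ∧ q = 6)) →
    ∀ (V C : Type) [Fintype V] [Fintype C] [Nonempty V], Fintype.card C = q →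
      ∀ G : SimpleGraph V, (∀ v, (univ.filter (fun u => G.Adj v u)).card ≤ Δ) →
      ∀ t : ℕ, 2 * (q : ℝ) ^ (3 * K + 1) * ((Fintype.card V : ℝ) + 1) ^ (K + 1) ≤ t →
      ∀ f0 : {f : V → C // f ∈ PC G C}, tvd G C t f0 ≤ 1 / 4 := by
  have key : ∀ Δ : ℕ, ∃ K : ℕ, Δ + 2 ≤ q → (7 * Δ ≤ 4 * q + 3 ∨ (Δ = 4 ∧ q = 6)) →
    ∀ (V C : Type) [Fintype V] [Fintype C] [Nonempty V], Fintype.card C = q →
      ∀ G : SimpleGraph V, (∀ v, (univ.filter (fun u => G.Adj v u)).card ≤ Δ) →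
      ∀ t : ℕ, 2 * (q : ℝ) ^ (3 * K + 1) * ((Fintype.card V : ℝ) + 1) ^ (K + 1) ≤ t →
      ∀ f0 : {f : V → C // f ∈ PC G C}, tvd G C t f0 ≤ 1 / 4 := by
    intro Δ
    by_cases h : Δ + 2 ≤ q ∧ (7 * Δ ≤ 4 * q + 3 ∨ (Δ = 4 ∧ q = 6))
    · obtain ⟨h1, h2⟩ := h
      have hk : ∃ κ : ℝ, κ < 1 ∧ Kap Δ (q - Δ) κ := by
        rcases h2 with h2 | ⟨rfl, rfl⟩
        · rcases Nat.eq_zero_or_pos Δ with rfl | hpos
          · exact ⟨0, by norm_num, kap_zero _⟩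
          · exact ⟨149 / 150, by norm_num, kap_big Δ (q - Δ) (by omega) hpos (by omega)⟩
        · exact ⟨99 / 100, by norm_num, kap_four⟩
      obtain ⟨κ, hκ1, hκ⟩ := hk
      obtain ⟨K, hK⟩ := mixing_of_kap Δ (q - Δ) (by omega) κ hκ1 hκ
      refine ⟨K, fun _ _ V C _ _ _ hC G hG t ht f0 => ?_⟩
      have hq : Δ + (q - Δ) = q := by omega
      exact hK V C (by omega) G hG t (by rw [hq]; exact ht) f0
    · exact ⟨0, fun h1 h2 => absurd ⟨h1, h2⟩ h⟩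
  choose K hK using key
  refine ⟨(range (q + 1)).sup K, fun Δ h1 h2 V C _ _ _ hC G hG t ht f0 => ?_⟩
  refine hK Δ h1 h2 V C hC G hG t (le_trans ?_ ht) f0
  have hle : K Δ ≤ (range (q + 1)).sup K := le_sup (mem_range.2 (by omega))
  have hq1 : (1 : ℝ) ≤ q := by
    have : 1 ≤ q := by omega
    exact_mod_cast this
  have hn1 : (1 : ℝ) ≤ (Fintype.card V : ℝ) + 1 := by
    have : (0 : ℝ) ≤ Fintype.card V := by positivity
    linarith
  have e1 : (q : ℝ) ^ (3 * K Δ + 1) ≤ (q : ℝ) ^ (3 * (range (q + 1)).sup K + 1) :=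
    pow_le_pow_right₀ hq1 (by omega)
  have e2 : ((Fintype.card V : ℝ) + 1) ^ (K Δ + 1) ≤
      ((Fintype.card V : ℝ) + 1) ^ ((range (q + 1)).sup K + 1) :=
    pow_le_pow_right₀ hn1 (by omega)
  calc 2 * (q : ℝ) ^ (3 * K Δ + 1) * ((Fintype.card V : ℝ) + 1) ^ (K Δ + 1)
      ≤ 2 * (q : ℝ) ^ (3 * (range (q + 1)).sup K + 1) *
        ((Fintype.card V : ℝ) + 1) ^ (K Δ + 1) := by
        apply mul_le_mul_of_nonneg_right _ (by positivity)
        linarith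
    _ ≤ 2 * (q : ℝ) ^ (3 * (range (q + 1)).sup K + 1) *
        ((Fintype.card V : ℝ) + 1) ^ ((range (q + 1)).sup K + 1) :=
        mul_le_mul_of_nonneg_left e2 (by positivity)

end Pool.Agent.Results.MP_26a019_lc.AllGraphs
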