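import Pool.Agent.Lib.MP_26a019_lc.Eps.All

set_option autoImplicit false

/-!
MP_26a019_lc. Rapid mixing of Glauber dynamics on proper `q`-colourings with `q ≥ D + s` colours on
all graphs of maximum degree at most `D` with few 4-cycles: if every vertex lies on at most `Q/2`
cycles of length four and `3^17 (Q + q^2) q^14 ≤ s^17`, `2 s ≤ q`, the dynamics is within total
variation distance `1/4` of uniform after `16 (q/s)^2 n log(4 q^n)` steps. For graphs without
4-cycles (`Q = 0`) the condition is `s ≥ 3 q^(16/17)`.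
-/

namespace Pool.Agent.Ret26.FewFourCycles

open Pool.Agent.Kempe Pool.Agent.KempeMix Pool.Agent.Eps26
open scoped Classical in
/-- Glauber dynamics mixes rapidly with `D + s` colours, `s = o(D)`, if there are few 4-cycles. -/
theorem result {V : Type} [Fintype V] [Nonempty V] (G : SimpleGraph V) (D q s Q : ℕ)
    (hD : ∀ v, G.degree v ≤ D) (hq : D + s ≤ q) (h2s : 2 * s ≤ q)
    (hQ : ∀ v, c4 G v ≤ Q) (hs : 3 ^ 17 * (Q + q ^ 2) * q ^ 14 ≤ s ^ 17)
    (t : ℕ) (ht : 16 * ((q : ℝ) / (s : ℝ)) ^ 2 * (Fintype.card V : ℝ) *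
      Real.log (4 * (q : ℝ) ^ (Fintype.card V)) ≤ (t : ℝ))
    (f0 : {f : V → Fin q // f ∈ PC G (Fin q)}) :
    tvd G (Fin q) t f0 ≤ 1 / 4 := by
  obtain ⟨v0⟩ := ‹Nonempty V›
  have hne : Nonempty V := ⟨v0⟩
  have hq1 : 0 < q := lt_of_le_of_lt (Nat.zero_le _) (f0.1 v0).2
  have hs2 : 2 ≤ s := by
    by_contra hlt
    have h1 : s ≤ 1 := by omega
    have h2 : s ^ 17 ≤ 1 := by
      calc s ^ 17 ≤ 1 ^ 17 := Nat.pow_le_pow_left h1 17
        _ = 1 := one_pow _
    have h3 : 1 ≤ q ^ 14 := Nat.one_le_pow _ _ hq1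
    have h4 : 1 ≤ Q + q ^ 2 := le_trans (Nat.one_le_pow _ _ hq1) (Nat.le_add_left _ _)
    have h5 : 1 ≤ (Q + q ^ 2) * q ^ 14 := Nat.mul_pos h4 h3
    have h6 : 3 ^ 17 * ((Q + q ^ 2) * q ^ 14) ≤ 1 := by rw [← mul_assoc]; exact hs.trans h2
    omega
  refine mix_main (main_theorem V (Fin q)) G s D (Q : ℝ) hs2 (by simpa using h2s) (fun v => ?_)
    (by simpa using hq) (fun v => by exact_mod_cast hQ v) ?_ t ?_ f0
  · have h := hD v
    rw [← SimpleGraph.card_neighborFinset_eq_degree] at h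
    refine le_trans (le_of_eq ?_) h
    congr 1
    ext u
    simp
  · rw [Fintype.card_fin]
    have h1 : (3 : ℝ) ^ 17 * ((Q : ℝ) + (q : ℝ) ^ 2) * (q : ℝ) ^ 14 ≤ (s : ℝ) ^ 17 := by
      exact_mod_cast hs
    refine le_trans ?_ h1
    refine mul_le_mul_of_nonneg_right ?_ (by positivity)
    have hQ0 : (0 : ℝ) ≤ (Q : ℝ) := Nat.cast_nonneg _
    have hq0 : (0 : ℝ) ≤ (q : ℝ) ^ 2 := by positivity
    norm_num
    linarith
  · rw [Fintype.card_fin]
    refine le_trans (le_of_eq ?_) ht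
    ring

end Pool.Agent.Ret26.FewFourCycles
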