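import Pool.Agent.Lib.MP_26a019_lc.LG.Final
import Pool.Agent.Lib.MP_26a019_lc.LG.Scal
import Pool.Agent.Lib.MP_26a019_lc.LG.ScalD
import Pool.Agent.Lib.MP_26a019_lc.LG.CS
import Pool.Agent.Lib.MP_26a019_lc.LG.Entropy
import Pool.Agent.Lib.MP_26a019_lc.LG.Third
import Pool.Agent.Lib.MP_26a019_lc.LG.OneStep
import Pool.Agent.Lib.MP_26a019_lc.LG.Greedy
import Pool.Agent.Lib.MP_26a019_lc.LG.Basic
import Pool.Agent.Lib.MP_26a019_lc.LG.Indep
import Pool.Agent.Lib.MP_26a019_lc.LG.Forest
import Pool.Agent.Lib.MP_26a019_lc.LG.ThmA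
import Pool.Agent.Lib.MP_26a019_lc.LG.ThmB
import Pool.Agent.Lib.MP_26a019_lc.LG.Deriv
import Pool.Agent.Lib.MP_26a019_lc.LG.Ssm
import Pool.Agent.Lib.MP_26a019_lc.LG.Pin
import Pool.Agent.Lib.MP_26a019_lc.LG.PinTid
import Pool.Agent.Lib.MP_26a019_lc.LG.PinSsm
import Pool.Agent.Lib.MP_26a019_lc.LG.Tv
import Pool.Agent.Lib.MP_26a019_lc.LG.Chain
import Pool.Agent.Lib.MP_26a019_lc.LG.InflBasic
import Pool.Agent.Lib.MP_26a019_lc.LG.Count
import Pool.Agent.Lib.MP_26a019_lc.LG.OneLevel
import Pool.Agent.Lib.MP_26a019_lc.LG.Sphere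
import Pool.Agent.Lib.MP_26a019_lc.LG.Girth
import Pool.Agent.Lib.MP_26a019_lc.LG.Reveal
import Pool.Agent.Lib.MP_26a019_lc.LG.RevealAll
import Pool.Agent.Lib.MP_26a019_lc.LG.Far
import Pool.Agent.Lib.MP_26a019_lc.LG.DelTree
import Pool.Agent.Lib.MP_26a019_lc.LG.Const
import Pool.Agent.Lib.MP_26a019_lc.LG.Tot

set_option autoImplicit false

/-!
# Glauber dynamics with `q ≥ Δ + 2` colours mixes in polynomial time on graphs of large girth

For every `q` there are constants `g`, `A`, `b` such that for every finite simple graph `G` in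
which every vertex has at most `q - 2` neighbours and every cycle has more than `g` edges, the
heat-bath Glauber dynamics on the proper `q`-colourings of `G` is, from every starting
colouring and after every number `t ≥ A (|V| + 1) ^ b` of steps, within total variation distance
`1/4` of the uniform distribution.
-/

open Finset Classical

namespace Pool.Agent.Results.MP_26a019_lc.LargeGirth

open Pool.Agent.Kempe Pool.Agent.KempeMix Pool.Agent.KempeLG

theorem totStmt : TotStmt := by
  have hS : CSStmt := cs scalA scalB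
  have hOne : OneStepStmt := oneStep hS (entropy scalC scalD) third scalB
  have hB : BasicStmt := basic greedy
  have hI : IndepStmt := indep
  have hF : ForestStmt := forest hI hB
  have hA : ThmAStmt := thmA hOne hF hB third scalE
  have hBB : ThmBStmt := thmB hA hF hB third scalE
  have hSsm : SsmStmt := ssm hBB (deriv hB) hB
  have hPin : PinStmt := pin greedy
  have hTid : PinTidStmt := pinTid hBB hPin hB
  have hPSsm : PinSsmStmt := pinSsm hSsm hPin
  have hInf : InflStmt := inflBasic hPin
  have hChain : ChainStmt := chain tv hI hPin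
  have hOL : OneLevelStmt := oneLevel hTid hPSsm greedy hPin count hInf
  have hSph : SphereStmt := sphere hOL hChain count hInf
  exact total const hSph (revealAll (reveal tv greedy hPin) hInf) (far hPin hI)
    (delTree hPSsm greedy hInf) girth count

theorem result : ∀ q : ℕ, ∃ g A b : ℕ,
    ∀ (V : Type) [Fintype V] [Nonempty V] (G : SimpleGraph V),
    (∀ v, (univ.filter (fun u => G.Adj v u)).card + 2 ≤ q) →
    (∀ (u : V) (c : G.Walk u u), c.IsCycle → g < c.length) →
    ∀ (t : ℕ), A * (Fintype.card V + 1) ^ b ≤ t →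
    ∀ f0 : {f : V → Fin q // f ∈ PC G (Fin q)}, tvd G (Fin q) t f0 ≤ 1 / 4 :=
  final totStmt

end Pool.Agent.Results.MP_26a019_lc.LargeGirth
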