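import Pool.Agent.Lib.MP_26a019_lc.Ex.Fin

set_option autoImplicit false

open Finset Classical

namespace Pool.Agent.Results.MP_26a019_lc.OnePlusEps

open Pool.Agent.Kempe Pool.Agent.KempeMix

/-- For every `ε > 0` there are `q0` and `K` such that for every graph with `n ≥ 1` vertices and
maximum degree at most `Δ` and every number `q ≥ q0` of colours with `q ≥ (1 + ε) Δ`, heat-bath
Glauber dynamics on the proper `q`-colourings is within total variation distance `1 / 4` of the
uniform law, from every starting colouring, after `t` steps for every `t ≥ K n^2 log q`. -/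
theorem result (ε : ℝ) (hε : 0 < ε) :
    ∃ (q0 : ℕ) (K : ℝ), ∀ (V C : Type) [Fintype V] [Fintype C] [Nonempty V]
      (G : SimpleGraph V) (Δ : ℕ), (∀ v, (univ.filter (fun u => G.Adj v u)).card ≤ Δ) →
      (1 + ε) * (Δ : ℝ) ≤ (Fintype.card C : ℝ) → q0 ≤ Fintype.card C →
      ∀ t : ℕ, K * (Fintype.card V : ℝ) ^ 2 * Real.log (Fintype.card C : ℝ) ≤ t →
        ∀ f0 : {f : V → C // f ∈ PC G C}, tvd G C t f0 ≤ 1 / 4 :=
  Pool.Agent.Ex26.mix_all Pool.Agent.Ex26.mainAll_proof ε hε

end Pool.Agent.Results.MP_26a019_lc.OnePlusEps
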